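import Pool.Agent.Helper67.BT.Stmts

/-!
Sections of coordinate-scaled balls (MP_10bc19_gt): the Lewis position.
-/

set_option autoImplicit false

open Finset MeasureTheory

namespace Pool.Agent.Helper67.BT

/-- normalisation of a vector -/
theorem lew_e {k : ℕ} (hk : 0 < k) (b : E k) : ∃ e : E k, ‖e‖ = 1 ∧ b = ‖b‖ • e := by
  by_cases hb : b = 0
  · refine ⟨EuclideanSpace.single ⟨0, hk⟩ 1, by simp, by rw [hb]; simp⟩
  · have hn : ‖b‖ ≠ 0 := norm_ne_zero_iff.2 hb
    refine ⟨‖b‖⁻¹ • b, ?_, ?_⟩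
    · rw [norm_smul, norm_inv, norm_norm, inv_mul_cancel₀ hn]
    · rw [smul_smul, mul_inv_cancel₀ hn, one_smul]

theorem lew_rpow (r p : ℝ) (hr : 0 ≤ r) (hp : 2 < p) : r ^ (p - 2) * (r * r) = r ^ p := by
  rcases hr.eq_or_lt with h | h
  · rw [← h, Real.zero_rpow (by linarith), Real.zero_rpow (by linarith)]; ring
  · have e1 : r * r = r ^ (2 : ℝ) := by
      rw [Real.rpow_two]; ring
    rw [e1, ← Real.rpow_add h]
    congr 1
    ring

theorem st_LEW (hA : ST_LWA) (hB : ST_LWB) : ST_LEW := by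
  intro n k p a hk hp hS
  obtain ⟨T, hdet, hsum, hmax⟩ := hA n k p a hk (by linarith) hS
  have hiso := hB n k p a T hk hp.le hdet hsum hmax
  choose e he1 he2 using fun i => lew_e hk (T (a i))
  -- the configuration
  have hterm : ∀ (i : Fin n) (x y : E k), ‖T (a i)‖ ^ p * inner ℝ (e i) x * inner ℝ (e i) y =
      ‖T (a i)‖ ^ (p - 2) * inner ℝ (T (a i)) x * inner ℝ (T (a i)) y := by
    intro i x y
    have h1 : inner ℝ (T (a i)) x = ‖T (a i)‖ * inner ℝ (e i) x := by
      conv_lhs => rw [he2 i]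
      rw [real_inner_smul_left]
    have h2 : inner ℝ (T (a i)) y = ‖T (a i)‖ * inner ℝ (e i) y := by
      conv_lhs => rw [he2 i]
      rw [real_inner_smul_left]
    rw [h1, h2, ← lew_rpow ‖T (a i)‖ p (norm_nonneg _) hp]
    ring
  let c : Cfg n k :=
    { s := fun i => ‖T (a i)‖ ^ p
      e := e
      s0 := fun i => Real.rpow_nonneg (norm_nonneg _) _
      e1 := he1
      iso := fun x y => by
        rw [← hiso x y]
        exact Finset.sum_congr rfl fun i _ => hterm i x y }
  -- the adjoint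
  have hunit : IsUnit T := (LinearMap.isUnit_iff_isUnit_det T).2 (isUnit_iff_ne_zero.2 hdet)
  have hbij : Function.Bijective T := (Module.End.isUnit_iff T).1 hunit
  have hinj : Function.Injective (LinearMap.adjoint T) := by
    rw [injective_iff_map_eq_zero]
    intro x hx
    obtain ⟨y, hy⟩ := hbij.2 x
    have h1 : inner ℝ (LinearMap.adjoint T x) y = inner ℝ x (T y) :=
      LinearMap.adjoint_inner_left T y x
    rw [hx, inner_zero_left, hy] at h1
    exact inner_self_eq_zero.1 h1.symm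
  refine ⟨LinearEquiv.ofInjectiveEndo (LinearMap.adjoint T) hinj, c, ?_⟩
  intro x i
  have h1 : inner ℝ (a i) (LinearEquiv.ofInjectiveEndo (LinearMap.adjoint T) hinj x) =
      inner ℝ (T (a i)) x := by
    rw [LinearEquiv.coe_ofInjectiveEndo]
    exact LinearMap.adjoint_inner_right T (a i) x
  have h2 : inner ℝ (T (a i)) x = ‖T (a i)‖ * inner ℝ (e i) x := by
    conv_lhs => rw [he2 i]
    rw [real_inner_smul_left]
  have h3 : |‖T (a i)‖ * inner ℝ (e i) x| ^ p = ‖T (a i)‖ ^ p * |inner ℝ (e i) x| ^ p := by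
    rw [abs_mul, abs_norm, Real.mul_rpow (norm_nonneg _) (abs_nonneg _)]
  rw [h1, h2, h3]
  rfl

end Pool.Agent.Helper67.BT
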